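import Pool.Agent.H37.CND.Stmts

/-!
# Row CVN: the conductor of the cover
-/

set_option autoImplicit false

namespace Pool.CND

open Finset

section

variable {p : ℕ} {k : Type} [Field k] [Fact p.Prime] [CharP k p]

/-- roots of `x ^ p = x` in a field of characteristic `p` -/
theorem card_fix : Nat.card {b : k // b ^ p - b = 0} = p := by
  classical
  have hp := (Fact.out : p.Prime)
  let f : ZMod p → {b : k // b ^ p - b = 0} := fun a => ⟨ZMod.castHom (dvd_refl p) k a, by
    rw [← map_pow, ZMod.pow_card, sub_self]⟩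
  have hinj : Function.Injective f := fun a b hab => by
    have h1 : ZMod.castHom (dvd_refl p) k a = ZMod.castHom (dvd_refl p) k b :=
      congrArg Subtype.val hab
    exact (ZMod.castHom (dvd_refl p) k).injective h1
  let Q : Polynomial k := Polynomial.X ^ p - Polynomial.X
  have hQ : Q ≠ 0 := by
    have h1 : Q.coeff p = 1 := by
      simp only [Q, Polynomial.coeff_sub, Polynomial.coeff_X_pow, if_true, Polynomial.coeff_X]
      rw [if_neg (by exact hp.one_lt.ne), sub_zero]
    intro h0
    rw [h0] at h1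
    simp at h1
  have hdeg : Q.natDegree ≤ p := by
    refine (Polynomial.natDegree_sub_le _ _).trans ?_
    simp [hp.one_lt.le]
  let g : {b : k // b ^ p - b = 0} → (Q.roots.toFinset : Set k) := fun b => ⟨b.1, by
    simp only [Finset.mem_coe, Multiset.mem_toFinset, Polynomial.mem_roots hQ, Polynomial.IsRoot.def]
    simp [Q, b.2]⟩
  have hg : Function.Injective g := fun a b hab => Subtype.ext (Subtype.mk.inj hab)
  have hfin : Finite {b : k // b ^ p - b = 0} := Finite.of_injective g hg
  apply le_antisymm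
  · have h1 := Nat.card_le_card_of_injective g hg
    have h2 : Nat.card (Q.roots.toFinset : Set k) ≤ p := by
      rw [Nat.card_coe_set_eq, Set.ncard_coe_finset]
      exact (Multiset.toFinset_card_le _).trans ((Polynomial.card_roots' Q).trans hdeg)
    exact h1.trans h2
  · have h1 := Nat.card_le_card_of_injective f hinj
    rwa [Nat.card_zmod] at h1

theorem card_w_zero (h : ℕ) : ({g : EG k p h | g.w = 0} : Set (EG k p h)).ncard = p := by
  have hp := (Fact.out : p.Prime)
  have e : {g : EG k p h | g.w = 0} ≃ {b : k // b ^ p - b = 0} :=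
    { toFun := fun g => ⟨g.1.β, by
        rw [g.1.β_eq, show g.1.w = 0 from g.2, zero_pow (Nat.succ_ne_zero _)]⟩
      invFun := fun b => ⟨⟨(0, b.1), by
        refine ⟨?_, ?_⟩
        · show (0 : k) ^ (p ^ (2 * h)) = -0
          rw [zero_pow (pow_ne_zero _ hp.ne_zero), neg_zero]
        · show b.1 ^ p - b.1 = 0 ^ (p ^ h + 1)
          rw [zero_pow (Nat.succ_ne_zero _), b.2]⟩, rfl⟩
      left_inv := fun g => Subtype.ext (EG.ext (show (0 : k) = g.1.w from (show g.1.w = 0 from g.2).symm) rfl)
      right_inv := fun b => rfl }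
  rw [← Nat.card_coe_set_eq, Nat.card_congr e, card_fix]

end

theorem cvn_thm (hCVB : S_CVB) (hCVF : S_CVF) (hCVC : S_CVC) (hRAM : S_RAM) (hEGC : S_EGC) :
    S_CVN := by
  intro p k L _ _ _ _ _ _ h m s x y ρ P hh hm hpm H
  have hp := (Fact.out : p.Prime)
  obtain ⟨hfin, hcard⟩ := hEGC p k h hh
  have hcov := hCVC p k L h m s x y ρ P hh hm hpm H
  have hfix := hCVF p k L h m s x y ρ P hh hm hpm H
  have hb := hCVB p k L h m s x y ρ P hh hm hpm H
  have hmm : m ≤ m * (p ^ h + 1) := Nat.le_mul_of_pos_right _ (Nat.succ_pos _)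
  have hmem : ∀ (i : ℕ) (g : EG k p h), 1 ≤ i → (g ∈ ram P ρ i ↔
      g = 1 ∨ (g.w ≠ 0 ∧ i ≤ m) ∨ (g.w = 0 ∧ i ≤ m * (p ^ h + 1))) := by
    intro i g hi
    rw [hRAM k L (EG k p h) P ρ g i hi]
    constructor
    · rintro ⟨-, h1 | h1⟩
      · left
        exact hcov.inj (by rw [h1, map_one])
      · by_cases hg : g = 1
        · exact Or.inl hg
        right
        by_cases hw : g.w = 0
        · right
          refine ⟨hw, ?_⟩
          rw [(hb g hg).2 hw] at h1
          exact_mod_cast h1
        · left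
          refine ⟨hw, ?_⟩
          rw [(hb g hg).1 hw] at h1
          exact_mod_cast h1
    · intro h1
      refine ⟨hfix g, ?_⟩
      by_cases hg : g = 1
      · left
        rw [hg, map_one]
      right
      rcases h1 with h1 | ⟨hw, h1⟩ | ⟨hw, h1⟩
      · exact absurd h1 hg
      · rw [(hb g hg).1 hw]
        exact_mod_cast h1
      · rw [(hb g hg).2 hw]
        exact_mod_cast h1
  have h1w : (1 : EG k p h).w = 0 := EG.one_w
  have r1 : ∀ i : ℕ, 1 ≤ i → i ≤ m → (ram P ρ i).ncard = p ^ (2 * h + 1) := by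
    intro i hi him
    have : ram P ρ i = Set.univ := by
      ext g
      rw [hmem i g hi]
      simp only [Set.mem_univ, iff_true]
      by_cases hw : g.w = 0
      · exact Or.inr (Or.inr ⟨hw, him.trans hmm⟩)
      · exact Or.inr (Or.inl ⟨hw, him⟩)
    rw [this, Set.ncard_univ, hcard]
  have r2 : ∀ i : ℕ, m < i → i ≤ m * (p ^ h + 1) → (ram P ρ i).ncard = p := by
    intro i hi him
    have : ram P ρ i = {g : EG k p h | g.w = 0} := by
      ext g
      rw [hmem i g (by omega)]
      simp only [Set.mem_ofPred_eq]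
      constructor
      · rintro (h1 | ⟨hw, h1⟩ | ⟨hw, h1⟩)
        · rw [h1]; exact h1w
        · omega
        · exact hw
      · intro hw
        exact Or.inr (Or.inr ⟨hw, him⟩)
    rw [this, card_w_zero]
  have r3 : ram P ρ (m * (p ^ h + 1) + 1) = {1} := by
    ext g
    rw [hmem _ g (by omega)]
    simp only [Set.mem_singleton_iff]
    constructor
    · rintro (h1 | ⟨hw, h1⟩ | ⟨hw, h1⟩)
      · exact h1
      · omega
      · omega
    · exact Or.inl
  have r0 : (ram P ρ 0).ncard = p ^ (2 * h + 1) := by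
    have : ram P ρ 0 = Set.univ := by
      ext g
      simp only [Set.mem_univ, iff_true]
      refine ⟨hfix g, fun u hu hu1 => ?_⟩
      have h1 : P.Ge (ρ g u - u) 1 := by
        refine P.ge_sub ((hfix g).ge ?_) ?_
        · exact Or.inr hu1.ge
        · exact Or.inr hu1.ge
      rcases h1 with h1 | h1
      · exact Or.inl (sub_eq_zero.1 h1)
      · right
        push_cast
        linarith
    rw [this, Set.ncard_univ, hcard]
  refine ⟨m * (p ^ h + 1), ?_, r3, ?_⟩
  · intro h0
    have h1 : 0 < m * p ^ h := Nat.mul_pos hm (pow_pos hp.pos _)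
    have h2 := r2 (m * (p ^ h + 1)) (by rw [mul_add, mul_one]; omega) le_rfl
    rw [h0, Set.ncard_singleton] at h2
    exact hp.one_lt.ne h2
  · have hsum : ∑ i ∈ Icc 1 (m * (p ^ h + 1)), ((ram P ρ i).ncard : ℚ) =
        (m : ℚ) * (p : ℚ) ^ (2 * h + 1) + (m : ℚ) * (p : ℚ) ^ h * p := by
      have hsplit : Icc 1 (m * (p ^ h + 1)) = Icc 1 m ∪ Icc (m + 1) (m * (p ^ h + 1)) := by
        ext i
        simp only [mem_union, mem_Icc]
        omega
      have hdis : Disjoint (Icc 1 m) (Icc (m + 1) (m * (p ^ h + 1))) := by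
        rw [Finset.disjoint_left]
        intro i hi hi'
        simp only [mem_Icc] at hi hi'
        omega
      rw [hsplit, sum_union hdis]
      have s1 : ∑ i ∈ Icc 1 m, ((ram P ρ i).ncard : ℚ) = ∑ i ∈ Icc 1 m, ((p : ℚ) ^ (2 * h + 1)) := by
        refine sum_congr rfl fun i hi => ?_
        rw [mem_Icc] at hi
        rw [r1 i hi.1 hi.2]
        push_cast
        rfl
      have s2 : ∑ i ∈ Icc (m + 1) (m * (p ^ h + 1)), ((ram P ρ i).ncard : ℚ) =
          ∑ i ∈ Icc (m + 1) (m * (p ^ h + 1)), (p : ℚ) := by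
        refine sum_congr rfl fun i hi => ?_
        rw [mem_Icc] at hi
        rw [r2 i (by omega) hi.2]
      rw [s1, s2, sum_const, sum_const, Nat.card_Icc, Nat.card_Icc, nsmul_eq_mul, nsmul_eq_mul]
      have e1 : m + 1 - 1 = m := by omega
      have e2 : m * (p ^ h + 1) + 1 - (m + 1) = m * p ^ h := by
        rw [mul_add, mul_one]
        omega
      rw [e1, e2]
      push_cast
      ring
    rw [hsum, r0]
    have hp0 : (p : ℚ) ≠ 0 := by exact_mod_cast hp.ne_zero
    push_cast
    field_simp
    ring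

end Pool.CND
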