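import Pool.Agent.H37.CND.Stmts

/-!
# Row CVF: all automorphisms of the cover fix the place
-/

set_option autoImplicit false

namespace Pool.CND

open Finset

section

variable {p : ℕ} {k L : Type} [Field k] [Field L] [Algebra k L] [Fact p.Prime] [CharP k p]
  {h m : ℕ} {s x y : L} {ρ : EG k p h →* (L ≃ₐ[k] L)} {P : Place k L}

/-- the automorphisms fix `k(s)` -/
theorem Cvr.act_adj (H : Cvr p k L h m s x y ρ P) (g : EG k p h) {c : L}
    (hc : c ∈ IntermediateField.adjoin k {s}) : ρ g c = c := by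
  have h1 : IntermediateField.adjoin k {s} ≤
      IntermediateField.fixedField (Subgroup.zpowers (ρ g)) := by
    rw [IntermediateField.adjoin_le_iff]
    rintro _ rfl
    rintro ⟨σ, hσ⟩
    obtain ⟨n, rfl⟩ := Subgroup.mem_zpowers_iff.1 hσ
    show (ρ g ^ n) _ = _
    rw [← map_zpow]
    exact H.act_s _
  exact h1 hc ⟨ρ g, Subgroup.mem_zpowers _⟩

omit [Fact p.Prime] [CharP k p] in
/-- order of `B_w(x)` for `x` with a pole -/
theorem Bf_ge (P : Place k L) (w : k) {x : L} {N : ℤ} (hN : 0 ≤ N) (hp : 1 ≤ p) (hh : 1 ≤ h)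
    (hx : P.Ge x (-N)) :
    P.Ge (Bf p h (algebraMap k L w) x) (-(N * p ^ (h - 1))) := by
  refine P.ge_neg (P.ge_sum _ _ _ fun i hi => ?_)
  have hi' := mem_range.1 hi
  have h1 : P.Ge (algebraMap k L w ^ (p ^ h) * x) (0 + -N) :=
    P.ge_mul (by rw [← map_pow]; exact P.ge_const _) hx
  rw [zero_add] at h1
  by_cases h0 : algebraMap k L w ^ (p ^ h) * x = 0
  · left
    rw [h0, zero_pow]
    exact pow_ne_zero _ (by omega)
  · right
    have h2 := h1.resolve_left h0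
    rw [P.ord_pow h0]
    have h3 : ((p ^ i : ℕ) : ℤ) ≤ (p : ℤ) ^ (h - 1) := by
      exact_mod_cast Nat.pow_le_pow_right hp (by omega)
    have h4 : (0 : ℤ) ≤ ((p ^ i : ℕ) : ℤ) := by positivity
    nlinarith

theorem Cvr.ord_xw (H : Cvr p k L h m s x y ρ P) (hm : 1 ≤ m) (w : k) :
    x + algebraMap k L w ≠ 0 ∧ P.ord (x + algebraMap k L w) = P.ord x := by
  have hp := (Fact.out : p.Prime).pos
  refine P.ord_add_of_lt H.x_ne (P.ge_mono (P.ge_const w) ?_)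
  rw [H.ord_x]
  have : 0 < m * p := Nat.mul_pos hm hp
  omega

theorem Cvr.ord_yw (H : Cvr p k L h m s x y ρ P) (hh : 1 ≤ h) (hm : 1 ≤ m) (w β : k) :
    y + Bf p h (algebraMap k L w) x + algebraMap k L β ≠ 0 ∧
      P.ord (y + Bf p h (algebraMap k L w) x + algebraMap k L β) = P.ord y := by
  have hp := (Fact.out : p.Prime).pos
  rw [add_assoc]
  refine P.ord_add_of_lt H.y_ne ?_
  have h1 : P.Ge x (-((m * p : ℕ) : ℤ)) := by rw [← H.ord_x]; exact P.ge_ord x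
  have h2 := Bf_ge (h := h) P w (by positivity) hp hh h1
  have h3 : ((m * p : ℕ) : ℤ) * (p : ℤ) ^ (h - 1) = ((m * p ^ h : ℕ) : ℤ) := by
    obtain ⟨h', rfl⟩ : ∃ h', h = h' + 1 := ⟨h - 1, by omega⟩
    rw [Nat.add_sub_cancel]
    push_cast
    ring
  rw [h3] at h2
  have h4 : m * (p ^ h + 1) = m * p ^ h + m := by ring
  have h6 : P.ord y = -((m * p ^ h + m : ℕ) : ℤ) := by rw [H.ord_y, h4]
  rw [h6]
  generalize m * p ^ h = A at *
  refine P.ge_add (P.ge_mono h2 ?_) (P.ge_mono (P.ge_const β) ?_)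
  · omega
  · omega

/-- the orders of `x ^ i y ^ j` are distinct modulo `p q ^ 2` -/
theorem Cvr.distinct (H : Cvr p k L h m s x y ρ P) (hh : 1 ≤ h) (hpm : ¬ p ∣ m)
    (a b : Fin (p ^ (2 * h)) × Fin p) (hab : a ≠ b) :
    ¬ ((p * p ^ (2 * h) : ℕ) : ℤ) ∣ (a.1 : ℕ) * P.ord x + (a.2 : ℕ) * P.ord y -
      ((b.1 : ℕ) * P.ord x + (b.2 : ℕ) * P.ord y) := by
  have hp := (Fact.out : p.Prime)
  have hpp : Prime (p : ℤ) := Nat.prime_iff_prime_int.1 hp
  have hpm' : ¬ (p : ℤ) ∣ m := by exact_mod_cast hpm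
  intro hd
  rw [H.ord_x, H.ord_y] at hd
  obtain ⟨⟨i, hi⟩, ⟨j, hj⟩⟩ := a
  obtain ⟨⟨i', hi'⟩, ⟨j', hj'⟩⟩ := b
  simp only at hd
  have e1 : (i : ℤ) * -((m * p : ℕ) : ℤ) + (j : ℤ) * -((m * (p ^ h + 1) : ℕ) : ℤ) -
      ((i' : ℤ) * -((m * p : ℕ) : ℤ) + (j' : ℤ) * -((m * (p ^ h + 1) : ℕ) : ℤ)) =
      (m : ℤ) * ((p : ℤ) * (i' - i) + ((p : ℤ) ^ h + 1) * (j' - j)) := by
    push_cast
    ring
  rw [e1] at hd
  have hcop : IsCoprime ((p * p ^ (2 * h) : ℕ) : ℤ) (m : ℤ) := by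
    push_cast
    have : IsCoprime (p : ℤ) (m : ℤ) := (Int.prime_iff_natAbs_prime.2 (by simpa using hp)).coprime_iff_not_dvd.2 hpm'
    exact this.mul_left this.pow_left
  have hd2 := hcop.dvd_of_dvd_mul_left hd
  have hj2 : (p : ℤ) ∣ (j' - j : ℤ) := by
    have h1 : (p : ℤ) ∣ (p : ℤ) * (i' - i) + ((p : ℤ) ^ h + 1) * (j' - j) :=
      (Dvd.intro _ (by push_cast; rfl)).trans hd2
    have h2 : (p : ℤ) ∣ ((p : ℤ) ^ h) * (j' - j) := by
      obtain ⟨h', rfl⟩ : ∃ h', h = h' + 1 := ⟨h - 1, by omega⟩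
      exact ⟨(p : ℤ) ^ h' * (j' - j), by ring⟩
    have h3 : (p : ℤ) ∣ (p : ℤ) * (i' - i) := Dvd.intro _ rfl
    have h4 : (j' - j : ℤ) = ((p : ℤ) * (i' - i) + ((p : ℤ) ^ h + 1) * (j' - j)) -
      ((p : ℤ) ^ h) * (j' - j) - (p : ℤ) * (i' - i) := by ring
    rw [h4]
    exact dvd_sub (dvd_sub h1 h2) h3
  have hjj : j' = j := by
    have h1 : |(j' - j : ℤ)| < p := by rw [abs_lt]; constructor <;> omega
    have h2 := Int.eq_zero_of_abs_lt_dvd hj2 h1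
    omega
  subst hjj
  rw [sub_self, mul_zero, add_zero] at hd2
  push_cast at hd2
  have hi2 : ((p : ℤ) ^ (2 * h)) ∣ (i' - i : ℤ) :=
    (mul_dvd_mul_iff_left (by exact_mod_cast hp.ne_zero)).1 hd2
  have hii : i' = i := by
    have h0 : ((p ^ (2 * h) : ℕ) : ℤ) = (p : ℤ) ^ (2 * h) := by push_cast; rfl
    have h1 : |(i' - i : ℤ)| < (p : ℤ) ^ (2 * h) := by rw [← h0, abs_lt]; constructor <;> omega
    have h2 := Int.eq_zero_of_abs_lt_dvd hi2 h1
    omega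
  subst hii
  exact hab rfl

end

theorem cvf_thm (hVEC : S_VEC) : S_CVF := by
  intro p k L _ _ _ _ _ h m s x y ρ P hh hm hpm H g z hz
  have hp := (Fact.out : p.Prime)
  obtain ⟨c, hc, hzc⟩ := H.span z
  have hx' := H.ord_xw hm g.w
  have hy' := H.ord_yw hh hm g.w g.β
  set x' := x + algebraMap k L g.w with hx'def
  set y' := y + Bf p h (algebraMap k L g.w) x + algebraMap k L g.β with hy'def
  let C : Fin (p ^ (2 * h)) × Fin p → L := fun a => c a.1 a.2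
  let e : Fin (p ^ (2 * h)) × Fin p → L := fun a => x ^ (a.1 : ℕ) * y ^ (a.2 : ℕ)
  let e' : Fin (p ^ (2 * h)) × Fin p → L := fun a => x' ^ (a.1 : ℕ) * y' ^ (a.2 : ℕ)
  have hz1 : z = ∑ a, C a * e a := by
    rw [hzc, Fintype.sum_prod_type]
    refine sum_congr rfl fun i _ => sum_congr rfl fun j _ => ?_
    simp only [C, e]
    ring
  have hz2 : ρ g z = ∑ a, C a * e' a := by
    rw [hz1, map_sum]
    refine sum_congr rfl fun a _ => ?_
    simp only [C, e, e', map_mul, map_pow, H.act_x, H.act_y]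
    rw [H.act_adj g (hc _ _)]
  have he : ∀ a, e a ≠ 0 := fun a => mul_ne_zero (pow_ne_zero _ H.x_ne) (pow_ne_zero _ H.y_ne)
  have he' : ∀ a, e' a ≠ 0 := fun a => mul_ne_zero (pow_ne_zero _ hx'.1) (pow_ne_zero _ hy'.1)
  have oe : ∀ a, P.ord (e a) = (a.1 : ℕ) * P.ord x + (a.2 : ℕ) * P.ord y := fun a => by
    simp only [e]
    rw [P.ord_mul _ _ (pow_ne_zero _ H.x_ne) (pow_ne_zero _ H.y_ne), P.ord_pow H.x_ne,
      P.ord_pow H.y_ne]
  have oe' : ∀ a, P.ord (e' a) = (a.1 : ℕ) * P.ord x + (a.2 : ℕ) * P.ord y := fun a => by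
    simp only [e']
    rw [P.ord_mul _ _ (pow_ne_zero _ hx'.1) (pow_ne_zero _ hy'.1), P.ord_pow hx'.1,
      P.ord_pow hy'.1, hx'.2, hy'.2]
  have hn : 1 ≤ p * p ^ (2 * h) := Nat.mul_pos hp.pos (pow_pos hp.pos _)
  have hC : ∀ a, C a = 0 ∨ ((p * p ^ (2 * h) : ℕ) : ℤ) ∣ P.ord (C a) := fun a => by
    by_cases h0 : C a = 0
    · exact Or.inl h0
    · exact Or.inr (H.ord_base _ (hc _ _) h0)
  have hex : ∃ a, C a ≠ 0 := by
    by_contra hcon
    push Not at hcon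
    apply hz
    rw [hz1]
    exact sum_eq_zero fun a _ => by rw [hcon a, zero_mul]
  obtain ⟨-, a, ha0, ha1, ha2⟩ := hVEC k L _ P (p * p ^ (2 * h)) e C hn he
    (fun i j hij => by rw [oe, oe]; exact H.distinct hh hpm i j hij) hC hex
  obtain ⟨-, b, hb0, hb1, hb2⟩ := hVEC k L _ P (p * p ^ (2 * h)) e' C hn he'
    (fun i j hij => by rw [oe', oe']; exact H.distinct hh hpm i j hij) hC hex
  have key : ∀ a, C a ≠ 0 → P.ord (C a * e' a) = P.ord (C a * e a) := fun a h0 => by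
    rw [P.ord_mul _ _ h0 (he' a), P.ord_mul _ _ h0 (he a), oe, oe']
  rw [hz2, hb1, hz1, ha1]
  apply le_antisymm
  · rw [← key a ha0]
    exact hb2 a ha0
  · rw [key b hb0]
    exact ha2 b hb0

end Pool.CND
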